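import Pool.Agent.Q229.PS.Stm

set_option autoImplicit false

/-!
# The path-stabbing number: steps over a gap (helper149)
-/

namespace Pool.Agent.Q149.PS

open Pool.Agent.NPC Pool.Agent.Q229.PS

/-- one step over gap `g` -/
def st (g a b : ℕ) : ℕ := if (a ≤ g ∧ g < b) ∨ (b ≤ g ∧ g < a) then 1 else 0

theorem cross_cc (g a b : ℕ) (l : List ℕ) :
    cross g (a :: b :: l) = st g a b + cross g (b :: l) := by
  unfold cross st
  rw [adjC_cons_cons]
  unfold cr
  congr 1
  split_ifs <;> rfl

@[simp] theorem cross_nil (g : ℕ) : cross g [] = 0 := rfl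

@[simp] theorem cross_single (g a : ℕ) : cross g [a] = 0 := rfl

theorem cross_head (g a a' : ℕ) (h : a ≤ g ↔ a' ≤ g) (l : List ℕ) :
    cross g (a :: l) = cross g (a' :: l) := by
  cases l with
  | nil => simp
  | cons b l =>
    rw [cross_cc, cross_cc]
    congr 1
    unfold st
    split_ifs <;> omega

theorem cross_le_cons (g a : ℕ) (l : List ℕ) : cross g l ≤ cross g (a :: l) := by
  cases l with
  | nil => simp
  | cons b l => rw [cross_cc]; omega

theorem cross_parity (g b : ℕ) (l : List ℕ) : ∀ a : ℕ,
    cross g (a :: (l ++ [b])) % 2 = if (a ≤ g ↔ b ≤ g) then 0 else 1 := by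
  induction l with
  | nil =>
    intro a
    simp only [List.nil_append, cross_cc, cross_single, st]
    split_ifs <;> omega
  | cons c l ih =>
    intro a
    rw [List.cons_append, cross_cc]
    have := ih c
    unfold st
    split_ifs at this ⊢ <;> omega

end Pool.Agent.Q149.PS
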