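import Pool.Agent.Q229.PS.Stm
import Pool.Agent.H671R2.PolyAuto

set_option autoImplicit false

/-!
# The path-stabbing number: the reduction is computable in polynomial time (job F3, helper149)
-/

namespace Pool.Agent.Q149.PS

open Pool.Agent.NPC Pool.Agent.Q229.PS

section

variable {α : Type} [TEnc α]

theorem p_occ : NPC.Poly occ := by
  unfold occ
  fun_prop

theorem p_rT {v : α → ℕ} {o : α → ℕ × Lit ℕ} (hv : NPC.Poly v) (ho : NPC.Poly o) :
    NPC.Poly (fun a => rT (v a) (o a)) := by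
  unfold rT
  fun_prop

theorem p_rF {v : α → ℕ} {o : α → ℕ × Lit ℕ} (hv : NPC.Poly v) (ho : NPC.Poly o) :
    NPC.Poly (fun a => rF (v a) (o a)) := by
  unfold rF
  fun_prop

theorem p_part1 : NPC.Poly (fun x : F3 × ℕ => part1 x.1 x.2) := by
  unfold part1
  refine NPC.Poly.flatMap (F := fun (x : F3 × ℕ) (o : ℕ × Lit ℕ) => [1, rT x.2 o, rT x.2 o, 1])
    (p_occ.comp (NPC.Poly.fst NPC.Poly.id)) ?_
  have h : NPC.Poly (fun y : (F3 × ℕ) × (ℕ × Lit ℕ) => rT y.1.2 y.2) :=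
    p_rT (by fun_prop) (by fun_prop)
  fun_prop

theorem p_part2 : NPC.Poly (fun x : F3 × ℕ => part2 x.1 x.2) := by
  unfold part2
  refine NPC.Poly.append ?_ (NPC.Poly.const _)
  refine NPC.Poly.flatMap (F := fun (x : F3 × ℕ) (o : ℕ × Lit ℕ) => [1, 1, rF x.2 o, rF x.2 o])
    (p_occ.comp (NPC.Poly.fst NPC.Poly.id)) ?_
  have h : NPC.Poly (fun y : (F3 × ℕ) × (ℕ × Lit ℕ) => rF y.1.2 y.2) :=
    p_rF (by fun_prop) (by fun_prop)
  fun_prop

theorem p_blk : NPC.Poly (fun x : F3 × ℕ => blk x.1 x.2) := by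
  have h1 := p_part1
  have h2 := p_part2
  unfold blk blkR
  fun_prop

theorem p_rows : NPC.Poly rows := by
  unfold rows
  refine NPC.Poly.append ?_ (NPC.Poly.const _)
  refine NPC.Poly.flatMap (F := fun (φ : F3) (v : ℕ) => blk φ v) ?_ p_blk
  exact (UPoly.mul (UPoly.const 3) (UPoly.length NPC.Poly.id)).range

theorem p_zr {r : α → ℕ → List Pt} {n : α → ℕ} (hr : NPC.Poly (fun x : α × ℕ => r x.1 x.2))
    (hn : UPoly n) : NPC.Poly (fun a => zr (r a) (n a)) := by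
  unfold zr
  refine NPC.Poly.flatMap (F := fun (a : α) (i : ℕ) => if i % 2 = 0 then r a i else (r a i).reverse)
    hn.range ?_
  fun_prop

theorem p_hrun {x0 n y : α → ℕ} (hx : NPC.Poly x0) (hn : UPoly n) (hy : NPC.Poly y) :
    NPC.Poly (fun a => hrun (x0 a) (n a) (y a)) := by
  unfold hrun
  refine NPC.Poly.map (F := fun (a : α) (i : ℕ) => ((x0 a + i, y a) : Pt)) hn.range ?_
  fun_prop

theorem p_vrun {x y0 n : α → ℕ} (hx : NPC.Poly x) (hy : NPC.Poly y0) (hn : UPoly n) :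
    NPC.Poly (fun a => vrun (x a) (y0 a) (n a)) := by
  unfold vrun
  refine NPC.Poly.map (F := fun (a : α) (i : ℕ) => ((x a, y0 a + i) : Pt)) hn.range ?_
  fun_prop

theorem u_m : UPoly (fun φ : F3 => (parOf φ).m) := UPoly.length NPC.Poly.id

theorem u_R : UPoly (fun φ : F3 => (parOf φ).R) := UPoly.length p_rows

theorem u_D : UPoly (fun φ : F3 => (parOf φ).D) :=
  UPoly.add (UPoly.mul (UPoly.const 4) u_R) (UPoly.const 41)

theorem u_T : UPoly (fun φ : F3 => (parOf φ).T) :=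
  UPoly.add (UPoly.add (UPoly.add (UPoly.mul (UPoly.const 4) u_R)
    (UPoly.mul (UPoly.mul (UPoly.const 4) u_D) (UPoly.add u_m (UPoly.const 2))))
    (UPoly.mul (UPoly.mul (UPoly.const 4) u_D) u_R)) (UPoly.const 40)

theorem u_L : UPoly (fun φ : F3 => (parOf φ).L) :=
  UPoly.add (UPoly.mul (UPoly.mul (UPoly.const 2) (UPoly.add u_T u_D)) (UPoly.add u_T u_D))
    (UPoly.const 4)

theorem u_W : UPoly (fun φ : F3 => (parOf φ).W) := UPoly.mul (UPoly.add u_m (UPoly.const 2)) u_L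

theorem u_H : UPoly (fun φ : F3 => (parOf φ).H) := UPoly.mul (UPoly.add u_R (UPoly.const 1)) u_L

theorem u_X : UPoly (fun φ : F3 => (parOf φ).X) := UPoly.mul (UPoly.add u_T (UPoly.const 1)) u_W

theorem u_Y : UPoly (fun φ : F3 => (parOf φ).Y) := UPoly.mul (UPoly.add u_T (UPoly.const 1)) u_H

theorem u_XX : UPoly (fun φ : F3 => (parOf φ).XX) :=
  UPoly.add (UPoly.mul (UPoly.mul (UPoly.const 4) u_H)
    (UPoly.add (UPoly.add u_X u_D) (UPoly.const 2))) (UPoly.const 1)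

theorem u_YY : UPoly (fun φ : F3 => (parOf φ).YY) :=
  UPoly.add (UPoly.mul (UPoly.mul (UPoly.const 4) u_W)
    (UPoly.add (UPoly.add u_Y u_D) (UPoly.const 2))) (UPoly.const 1)

theorem p_cap : NPC.Poly (fun x : F3 × ℕ => cap x.1 x.2) := by
  unfold cap
  fun_prop

theorem u_s : UPoly (fun x : F3 × ℕ => (parOf x.1).s x.2) := by
  refine UPoly.of_le (n := fun x : F3 × ℕ => (parOf x.1).D) ?_
    (u_D.comp (NPC.Poly.fst NPC.Poly.id)) (fun x => Nat.sub_le _ _)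
  have h1 : NPC.Poly (fun x : F3 × ℕ => (parOf x.1).D) :=
    u_D.toPoly.comp (NPC.Poly.fst NPC.Poly.id)
  exact NPC.Poly.sub h1 p_cap

theorem u_L1 : UPoly (fun φ : F3 => (parOf φ).L - 1) :=
  UPoly.of_le (NPC.Poly.sub u_L.toPoly (NPC.Poly.const 1)) u_L (fun _ => Nat.sub_le _ _)

theorem p_zoneS : NPC.Poly (fun x : F3 × ℕ => (parOf x.1).zoneS x.2) := by
  unfold Par.zoneS
  refine p_zr (r := fun (x : F3 × ℕ) (i : ℕ) => hrun (x.2 * (parOf x.1).L + 1)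
    ((parOf x.1).L - 1) ((parOf x.1).Y + 1 + i)) ?_ u_s
  have hL : NPC.Poly (fun y : (F3 × ℕ) × ℕ => (parOf y.1.1).L) := u_L.toPoly.comp (by fun_prop)
  have hY : NPC.Poly (fun y : (F3 × ℕ) × ℕ => (parOf y.1.1).Y) := u_Y.toPoly.comp (by fun_prop)
  refine p_hrun ?_ (u_L1.comp (f := fun y : (F3 × ℕ) × ℕ => y.1.1) (by fun_prop)) ?_
  · exact NPC.Poly.add (NPC.Poly.mul (by fun_prop) hL) (NPC.Poly.const 1)
  · exact NPC.Poly.add (NPC.Poly.add hY (NPC.Poly.const 1)) (by fun_prop)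

theorem p_rowsV : NPC.Poly (fun φ : F3 => (parOf φ).rowsV) := by
  unfold Par.rowsV
  refine p_zr (r := fun (φ : F3) (i : ℕ) => (hrun 0 ((parOf φ).W + 1)
    ((i + 1) * (parOf φ).YY)).reverse) ?_ u_T
  have hYY : NPC.Poly (fun y : F3 × ℕ => (parOf y.1).YY) := u_YY.toPoly.comp (by fun_prop)
  refine NPC.Poly.reverse (p_hrun (NPC.Poly.const 0) ?_ ?_)
  · exact UPoly.add (u_W.comp (f := fun y : F3 × ℕ => y.1) (by fun_prop)) (UPoly.const 1)
  · exact NPC.Poly.mul (by fun_prop) hYY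

theorem p_zoneT : NPC.Poly (fun x : F3 × ℕ => (parOf x.1).zoneT x.2) := by
  unfold Par.zoneT
  refine p_zr (r := fun (x : F3 × ℕ) (i : ℕ) => (vrun ((parOf x.1).X + 1 + i)
    (x.2 * (parOf x.1).L + 1) ((parOf x.1).L - 1)).reverse) ?_
    (u_D.comp (NPC.Poly.fst NPC.Poly.id))
  have hL : NPC.Poly (fun y : (F3 × ℕ) × ℕ => (parOf y.1.1).L) := u_L.toPoly.comp (by fun_prop)
  have hX : NPC.Poly (fun y : (F3 × ℕ) × ℕ => (parOf y.1.1).X) := u_X.toPoly.comp (by fun_prop)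
  refine NPC.Poly.reverse (p_vrun ?_ ?_ (u_L1.comp (f := fun y : (F3 × ℕ) × ℕ => y.1.1)
    (by fun_prop)))
  · exact NPC.Poly.add (NPC.Poly.add hX (NPC.Poly.const 1)) (by fun_prop)
  · exact NPC.Poly.add (NPC.Poly.mul (by fun_prop) hL) (NPC.Poly.const 1)

theorem p_colsH : NPC.Poly (fun φ : F3 => (parOf φ).colsH) := by
  unfold Par.colsH
  refine p_zr (r := fun (φ : F3) (i : ℕ) => vrun ((i + 1) * (parOf φ).XX) 0
    ((parOf φ).H + 1)) ?_ ?_
  · have hXX : NPC.Poly (fun y : F3 × ℕ => (parOf y.1).XX) := u_XX.toPoly.comp (by fun_prop)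
    refine p_vrun ?_ (NPC.Poly.const 0) ?_
    · exact NPC.Poly.mul (by fun_prop) hXX
    · exact UPoly.add (u_H.comp (f := fun y : F3 × ℕ => y.1) (by fun_prop)) (UPoly.const 1)
  · exact UPoly.of_le (NPC.Poly.sub u_T.toPoly (NPC.Poly.const 1)) u_T (fun _ => Nat.sub_le _ _)

theorem p_rest : NPC.Poly (fun φ : F3 => (parOf φ).rest) := by
  unfold Par.rest
  refine NPC.Poly.append ?_ (NPC.Poly.cons ?_ (NPC.Poly.append p_rowsV (NPC.Poly.append ?_
    (NPC.Poly.cons ?_ p_colsH))))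
  · exact NPC.Poly.flatMap (F := fun (φ : F3) (j : ℕ) => (parOf φ).zoneS j)
      (UPoly.add u_m (UPoly.const 2)).range p_zoneS
  · exact NPC.Poly.pair u_W.toPoly (NPC.Poly.add (NPC.Poly.add u_Y.toPoly u_D.toPoly)
      (NPC.Poly.const 1))
  · refine NPC.Poly.flatMap (F := fun (φ : F3) (k : ℕ) => (parOf φ).zoneT ((parOf φ).R - k))
      u_R.range ?_
    have hR : NPC.Poly (fun y : F3 × ℕ => (parOf y.1).R) := u_R.toPoly.comp (by fun_prop)
    obtain ⟨Z, eZ⟩ : ∃ Z : F3 × ℕ → List Pt, ∀ x, (parOf x.1).zoneT x.2 = Z x :=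
      ⟨_, fun _ => rfl⟩
    have hZ : NPC.Poly Z := p_zoneT.congr eZ
    obtain ⟨Rf, eR⟩ : ∃ Rf : F3 × ℕ → ℕ, ∀ y, (parOf y.1).R = Rf y := ⟨_, fun _ => rfl⟩
    have hR' : NPC.Poly Rf := hR.congr eR
    have h : NPC.Poly (fun y : F3 × ℕ => ((y.1, Rf y - y.2) : F3 × ℕ)) :=
      NPC.Poly.pair (by fun_prop) (NPC.Poly.sub hR' (by fun_prop))
    refine (hZ.comp h).congr (fun y => ?_)
    rw [← eZ, ← eR]
  · exact NPC.Poly.pair (NPC.Poly.add (NPC.Poly.add u_X.toPoly u_D.toPoly)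
      (NPC.Poly.const 1)) (NPC.Poly.const 0)

theorem p_ptsOf : NPC.Poly ptsOf := by
  unfold ptsOf Par.pts
  refine NPC.Poly.append ?_ p_rest
  unfold Par.mainP
  have hL := u_L.toPoly
  have h1 : NPC.Poly (fun φ : F3 => (rows φ).map (rowL true)) := by
    refine NPC.Poly.map (F := fun (φ : F3) (ρ : Row) => rowL true ρ) p_rows ?_
    unfold rowL
    simp only [if_true]
    fun_prop
  refine NPC.Poly.flatMap (F := fun (φ : F3) (q : List ℕ × ℕ) =>
    q.1.map (fun x => ((x * (parOf φ).L, (q.2 + 1) * (parOf φ).L) : Pt))) (NPC.Poly.zipIdx h1) ?_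
  refine NPC.Poly.map (F := fun (y : F3 × (List ℕ × ℕ)) (x : ℕ) =>
    ((x * (parOf y.1).L, (y.2.2 + 1) * (parOf y.1).L) : Pt)) (by fun_prop) ?_
  have hL' : NPC.Poly (fun z : (F3 × (List ℕ × ℕ)) × ℕ => (parOf z.1.1).L) :=
    hL.comp (by fun_prop)
  exact NPC.Poly.pair (NPC.Poly.mul (by fun_prop) hL') (NPC.Poly.mul (by fun_prop) hL')

theorem p_ratCast {f : α → ℕ} (hf : NPC.Poly f) : NPC.Poly (fun a => ((f a : ℕ) : ℚ)) :=
  NPC.Poly.of_toT ((NPC.Poly.toT' (NPC.Poly.pair (NPC.Poly.natCast_int hf)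
    (NPC.Poly.const 1))).congr fun a => by
      change toT (((f a : ℕ) : ℤ), 1) = toT ((((f a : ℕ) : ℚ)).num, (((f a : ℕ) : ℚ)).den)
      simp)

theorem t_F3 : F3Stm := by
  change NPC.Poly inst
  unfold inst
  refine NPC.Poly.pair ?_ ?_
  · refine NPC.Poly.map (F := fun (_ : F3) (q : Pt) => (((q.1 : ℕ) : ℚ), ((q.2 : ℕ) : ℚ)))
      p_ptsOf ?_
    exact NPC.Poly.pair (p_ratCast (by fun_prop)) (p_ratCast (by fun_prop))
  · exact NPC.Poly.natCast_int (NPC.Poly.add u_T.toPoly u_D.toPoly)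

end

end Pool.Agent.Q149.PS
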