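import Pool.Agent.Q229.PS.Stm

set_option autoImplicit false

/-!
# The path-stabbing number: saturated gaps (job N1, helper149)
-/

namespace Pool.Agent.Q149.PS

open Pool.Agent.NPC Pool.Agent.Q229.PS

open Classical in
/-- `adjC` counts indices -/
theorem adjC_card {α : Type} (R : α → α → Prop) (d : α) (l : List α) :
    adjC R l = ((Finset.range (l.length - 1)).filter
      (fun i => R (l.getD i d) (l.getD (i + 1) d))).card := by
  rw [Finset.card_filter]
  induction l with
  | nil => simp
  | cons b l ih =>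
    cases l with
    | nil => simp
    | cons c l =>
      rw [adjC_cons_cons, ih]
      simp only [List.length_cons, Nat.add_sub_cancel]
      rw [Finset.sum_range_succ']
      simp only [List.getD_cons_succ, List.getD_cons_zero, Nat.zero_add]
      omega

theorem mem_getD {α : Type} (d : α) (l : List α) (a : α) (h : a ∈ l) :
    ∃ i, i ≤ l.length - 1 ∧ l.getD i d = a := by
  obtain ⟨i, hi, rfl⟩ := List.mem_iff_getElem.1 h
  exact ⟨i, by omega, List.getD_eq_getElem _ _ hi⟩

/-- a property which holds somewhere and fails somewhere changes somewhere -/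
theorem exists_change (Q : ℕ → Prop) (n i0 i1 : ℕ) (h0 : i0 ≤ n) (h1 : i1 ≤ n) (hQ0 : Q i0)
    (hQ1 : ¬ Q i1) : ∃ i, i < n ∧ ((Q i ∧ ¬ Q (i + 1)) ∨ (¬ Q i ∧ Q (i + 1))) := by
  by_contra hno
  push Not at hno
  have key : ∀ i, i ≤ n → (Q i ↔ Q 0) := by
    intro i
    induction i with
    | zero => intro _; exact Iff.rfl
    | succ i ih =>
      intro hi
      have h2 := hno i (by omega)
      have h3 := ih (by omega)
      rw [← h3]
      constructor
      · intro h4
        by_contra h5
        exact h2.2 h5 h4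
      · exact h2.1
  exact hQ1 ((key i1 h1).2 ((key i0 h0).1 hQ0))

open Classical in
theorem t_N1 : N1Stm := by
  intro P u v K x0 n hs hu hv hpos hcard hn hex
  let f : ℕ → Pt := fun i => P.getD i (0, 0)
  let N : ℕ := P.length - 1
  have hf : ∀ a ∈ P, ∃ i, i ≤ N ∧ f i = a := fun a ha => mem_getD (0, 0) P a ha
  -- bad gaps
  let bad : ℕ → ℕ → Prop := fun h g => ∀ i, i < N → v (f i) = h → v (f (i + 1)) = h →
    ¬ cr g (u (f i)) (u (f (i + 1)))
  let B : ℕ → Finset ℕ := fun h => (Finset.Ico x0 (x0 + n)).filter (bad h)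
  let C : ℕ → Finset ℕ := fun h => (Finset.range N).filter
    (fun i => (v (f i) = h ∧ v (f (i + 1)) ≠ h) ∨ (v (f i) ≠ h ∧ v (f (i + 1)) = h))
  have hC : ∀ h ∈ hs, (C h).card ≤ 2 * K := by
    intro h hh
    have hh1 := hpos h hh
    have e1 := hv h
    have e2 := hv (h - 1)
    rw [adjC_card _ (0, 0)] at e1 e2
    have hsub : C h ⊆ ((Finset.range (P.length - 1)).filter
        (fun i => cr h (v (P.getD i (0, 0))) (v (P.getD (i + 1) (0, 0))))) ∪
        ((Finset.range (P.length - 1)).filter
        (fun i => cr (h - 1) (v (P.getD i (0, 0))) (v (P.getD (i + 1) (0, 0))))) := by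
      intro i hi
      rw [Finset.mem_filter] at hi
      rw [Finset.mem_union, Finset.mem_filter, Finset.mem_filter]
      obtain ⟨hi1, hi2⟩ := hi
      change (v (P.getD i (0, 0)) = h ∧ v (P.getD (i + 1) (0, 0)) ≠ h) ∨
        (v (P.getD i (0, 0)) ≠ h ∧ v (P.getD (i + 1) (0, 0)) = h) at hi2
      by_cases hlt : cr h (v (P.getD i (0, 0))) (v (P.getD (i + 1) (0, 0)))
      · exact Or.inl ⟨hi1, hlt⟩
      · refine Or.inr ⟨hi1, ?_⟩
        unfold cr at hlt ⊢
        omega
    calc (C h).card ≤ _ := Finset.card_le_card hsub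
      _ ≤ _ := Finset.card_union_le _ _
      _ ≤ 2 * K := by omega
  have hB : ∀ h ∈ hs, (B h).card ≤ (C h).card := by
    intro h hh
    let w : ℕ → ℕ := fun i => if v (f i) = h then u (f i) else u (f (i + 1))
    refine Finset.card_le_card_of_forall_subsingleton
      (fun g i => w i ≤ g ∧ ∀ g' ∈ B h, w i ≤ g' → g ≤ g') ?_ ?_
    · intro g hg
      have hg' := hg
      rw [Finset.mem_filter, Finset.mem_Ico] at hg'
      obtain ⟨⟨hg1, hg2⟩, hbad⟩ := hg'
      let Q : ℕ → Prop := fun i => v (f i) = h ∧ u (f i) ≤ g ∧ ∀ g' ∈ B h, g' < g → g' < u (f i)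
      obtain ⟨a, ha, hua, hva⟩ := hex h hh (g - x0) (by omega)
      obtain ⟨b, hb, hub, hvb⟩ := hex h hh (g + 1 - x0) (by omega)
      obtain ⟨i0, hi0, hfi0⟩ := hf a ha
      obtain ⟨i1, hi1, hfi1⟩ := hf b hb
      have hQ0 : Q i0 := by
        refine ⟨by rw [hfi0]; exact hva, by rw [hfi0]; omega, ?_⟩
        intro g' _ hlt
        rw [hfi0]
        omega
      have hQ1 : ¬ Q i1 := by
        rintro ⟨_, h2, _⟩
        rw [hfi1] at h2
        omega
      obtain ⟨i, hiN, hi⟩ := exists_change Q N i0 i1 hi0 hi1 hQ0 hQ1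
      rcases hi with ⟨⟨q1, q2, q3⟩, hnq⟩ | ⟨hnq, ⟨q1, q2, q3⟩⟩
      · have hne : v (f (i + 1)) ≠ h := by
          intro he
          apply hnq
          refine ⟨he, ?_, ?_⟩
          · by_contra hlt
            exact hbad i hiN q1 he (Or.inl ⟨q2, not_le.1 hlt⟩)
          · intro g' hg' hlt
            by_contra hle
            have hb' := (Finset.mem_filter.1 hg').2
            exact hb' i hiN q1 he (Or.inr ⟨not_lt.1 hle, q3 g' hg' hlt⟩)
        refine ⟨i, Finset.mem_filter.2 ⟨Finset.mem_range.2 hiN, Or.inl ⟨q1, hne⟩⟩, ?_, ?_⟩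
        · change (if v (f i) = h then u (f i) else u (f (i + 1))) ≤ g
          rw [if_pos q1]
          exact q2
        · intro g' hg' hle
          change (if v (f i) = h then u (f i) else u (f (i + 1))) ≤ g' at hle
          rw [if_pos q1] at hle
          by_contra hlt
          have := q3 g' hg' (not_le.1 hlt)
          omega
      · have hne : v (f i) ≠ h := by
          intro he
          apply hnq
          refine ⟨he, ?_, ?_⟩
          · by_contra hlt
            exact hbad i hiN he q1 (Or.inr ⟨q2, not_le.1 hlt⟩)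
          · intro g' hg' hlt
            by_contra hle
            have hb' := (Finset.mem_filter.1 hg').2
            exact hb' i hiN he q1 (Or.inl ⟨not_lt.1 hle, q3 g' hg' hlt⟩)
        refine ⟨i, Finset.mem_filter.2 ⟨Finset.mem_range.2 hiN, Or.inr ⟨hne, q1⟩⟩, ?_, ?_⟩
        · change (if v (f i) = h then u (f i) else u (f (i + 1))) ≤ g
          rw [if_neg hne]
          exact q2
        · intro g' hg' hle
          change (if v (f i) = h then u (f i) else u (f (i + 1))) ≤ g' at hle
          rw [if_neg hne] at hle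
          by_contra hlt
          have := q3 g' hg' (not_le.1 hlt)
          omega
    · intro i _ g1 hg1 g2 hg2
      have a1 := hg1.2.2 g2 hg2.1 hg2.2.1
      have a2 := hg2.2.2 g1 hg1.1 hg1.2.1
      omega
  -- a gap which is never bad
  have hU : (hs.biUnion B).card ≤ K * (2 * K) := by
    calc (hs.biUnion B).card ≤ hs.card * (2 * K) :=
          Finset.card_biUnion_le_card_mul _ _ _ (fun h hh => (hB h hh).trans (hC h hh))
      _ ≤ K * (2 * K) := Nat.mul_le_mul_right _ hcard
  obtain ⟨g, hg, hgU⟩ : ∃ g ∈ Finset.Ico x0 (x0 + n), g ∉ hs.biUnion B := by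
    by_contra hno
    push Not at hno
    have := Finset.card_le_card (s := Finset.Ico x0 (x0 + n)) (t := hs.biUnion B) hno
    rw [Nat.card_Ico] at this
    omega
  have hgI := Finset.mem_Ico.1 hg
  refine ⟨g, hgI.1, hgI.2, ?_⟩
  have hgood : ∀ h ∈ hs, ∃ i, i < N ∧ v (f i) = h ∧ v (f (i + 1)) = h ∧
      cr g (u (f i)) (u (f (i + 1))) := by
    intro h hh
    by_contra hno
    push Not at hno
    apply hgU
    rw [Finset.mem_biUnion]
    exact ⟨h, hh, Finset.mem_filter.2 ⟨hg, fun i hi h1 h2 => hno i hi h1 h2⟩⟩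
  have hK := hu g
  rw [adjC_card _ (0, 0)] at hK ⊢
  let S : Finset ℕ := (Finset.range (P.length - 1)).filter
    (fun i => cr g (u (P.getD i (0, 0))) (u (P.getD (i + 1) (0, 0))))
  let S2 : Finset ℕ := S.filter (fun i => v (P.getD i (0, 0)) = v (P.getD (i + 1) (0, 0)) ∧
    v (P.getD i (0, 0)) ∈ hs)
  have hS2 : hs.card ≤ S2.card := by
    have : hs ⊆ S2.image (fun i => v (P.getD i (0, 0))) := by
      intro h hh
      obtain ⟨i, hi, h1, h2, h3⟩ := hgood h hh
      rw [Finset.mem_image]
      refine ⟨i, ?_, h1⟩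
      refine Finset.mem_filter.2 ⟨Finset.mem_filter.2 ⟨Finset.mem_range.2 hi, h3⟩, ?_, ?_⟩
      · exact h1.trans h2.symm
      · change v (f i) ∈ hs
        rw [h1]
        exact hh
    exact (Finset.card_le_card this).trans Finset.card_image_le
  have hsplit : ((Finset.range (P.length - 1)).filter (fun i =>
      cr g (u (P.getD i (0, 0))) (u (P.getD (i + 1) (0, 0))) ∧
        ¬ (v (P.getD i (0, 0)) = v (P.getD (i + 1) (0, 0)) ∧ v (P.getD i (0, 0)) ∈ hs))).card +
      S2.card = S.card := by
    have h1 : ((Finset.range (P.length - 1)).filter (fun i =>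
      cr g (u (P.getD i (0, 0))) (u (P.getD (i + 1) (0, 0))) ∧
        ¬ (v (P.getD i (0, 0)) = v (P.getD (i + 1) (0, 0)) ∧ v (P.getD i (0, 0)) ∈ hs))) =
        S.filter (fun i => ¬ (v (P.getD i (0, 0)) = v (P.getD (i + 1) (0, 0)) ∧
          v (P.getD i (0, 0)) ∈ hs)) := by
      rw [Finset.filter_filter]
    rw [h1, add_comm]
    exact Finset.card_filter_add_card_filter_not _
  have hSK : S.card ≤ K := hK
  refine le_trans (Nat.add_le_add (le_of_eq ?_) hS2) (hsplit.le.trans hSK)
  congr 1
  ext i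
  simp only [Finset.mem_filter]

end Pool.Agent.Q149.PS
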