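import Pool.Agent.Q149.PS.Cross

set_option autoImplicit false

/-!
# The path-stabbing number: the zigzag walks of a block (job W1, helper149)
-/

namespace Pool.Agent.Q149.PS

open Pool.Agent.NPC Pool.Agent.Q229.PS

theorem rT_pos (v : ℕ) (o : ℕ × Lit ℕ) : 1 ≤ rT v o := by unfold rT; omega

theorem rF_pos (v : ℕ) (o : ℕ × Lit ℕ) : 1 ≤ rF v o := by unfold rF; omega

theorem part1_pos (φ : F3) (v : ℕ) : ∀ r ∈ part1 φ v, 1 ≤ r := by
  intro r hr
  unfold part1 at hr
  rw [List.mem_flatMap] at hr
  obtain ⟨o, _, ho⟩ := hr
  have := rT_pos v o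
  simp only [List.mem_cons, List.not_mem_nil, or_false] at ho
  omega

theorem part2_pos (φ : F3) (v : ℕ) : ∀ r ∈ part2 φ v, 1 ≤ r := by
  intro r hr
  unfold part2 at hr
  rw [List.mem_append, List.mem_flatMap] at hr
  rcases hr with ⟨o, _, ho⟩ | hr
  · have := rF_pos v o
    simp only [List.mem_cons, List.not_mem_nil, or_false] at ho
    omega
  · simp only [List.mem_cons, List.not_mem_nil, or_false] at hr
    omega

theorem length_occ (φ : F3) : (occ φ).length = 3 * φ.length := by
  unfold occ
  rw [List.length_flatMap]
  simp only [List.length_cons, List.length_nil, List.map_const', List.sum_replicate,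
    List.length_zipIdx, smul_eq_mul]
  omega

theorem length_part1 (φ : F3) (v : ℕ) : (part1 φ v).length = 12 * φ.length := by
  unfold part1
  rw [List.length_flatMap]
  simp only [List.length_cons, List.length_nil, List.map_const', List.sum_replicate,
    smul_eq_mul, length_occ]
  omega

theorem length_part2 (φ : F3) (v : ℕ) : (part2 φ v).length = 12 * φ.length + 2 := by
  unfold part2
  rw [List.length_append, List.length_flatMap]
  simp only [List.length_cons, List.length_nil, List.map_const', List.sum_replicate,
    smul_eq_mul, length_occ]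
  omega

theorem rowL_true (r : ℕ) (h : 1 ≤ r) : rowL true (0, r) = [0, r] := by
  unfold rowL
  have h1 : ¬ ((0, r) : Row).1 = ((0, r) : Row).2 := by
    change ¬ (0 = r); omega
  rw [if_neg h1]
  rfl

theorem rowL_false (r : ℕ) (h : 1 ≤ r) : rowL false (0, r) = [r, 0] := by
  unfold rowL
  have h1 : ¬ ((0, r) : Row).1 = ((0, r) : Row).2 := by
    change ¬ (0 = r); omega
  rw [if_neg h1]
  rfl

theorem zig_walk (rs : List ℕ) : ∀ b : Bool, (∀ r ∈ rs, 1 ≤ r) →
    List.Forall₂ (fun (ρ : Row) u => ∃ b, u = rowL b ρ) (rs.map (fun r => (0, r))) (zig b rs) := by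
  induction rs with
  | nil => intro b _; exact List.Forall₂.nil
  | cons r rs ih =>
    intro b h
    rw [List.map_cons, zig]
    refine List.Forall₂.cons ?_ (ih (!b) (fun r hr => h r (List.mem_cons_of_mem _ hr)))
    have hr := h r (by simp)
    cases b with
    | true => exact ⟨true, by rw [rowL_true r hr]; rfl⟩
    | false => exact ⟨false, by rw [rowL_false r hr]; rfl⟩

theorem walk_blkR (rs : List ℕ) (b : Bool) (h : ∀ r ∈ rs, 1 ≤ r) :
    IsWalk (blkR rs) ([0] :: (zig b rs ++ [[1]])) := by
  unfold IsWalk blkR
  refine List.Forall₂.cons ⟨true, rfl⟩ ?_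
  exact List.rel_append (zig_walk rs b h) (List.Forall₂.cons ⟨true, rfl⟩ List.Forall₂.nil)

/-- an indicator -/
def ind (j r : ℕ) : ℕ := if j + 1 ≤ r then 1 else 0

theorem st_eq_zero (j a b : ℕ) (ha : a ≤ j) (hb : b ≤ j) : st j a b = 0 := by
  unfold st; split_ifs <;> omega

theorem st_right (j a r : ℕ) (ha : a ≤ j) : st j a r = ind j r := by
  unfold st ind; split_ifs <;> omega

theorem st_left (j a r : ℕ) (ha : a ≤ j) : st j r a = ind j r := by
  unfold st ind; split_ifs <;> omega

theorem st_self (j r : ℕ) : st j r r = 0 := by
  unfold st; split_ifs <;> omega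

/-- the values of `st` which occur -/
theorem vals (j : ℕ) (hj : 1 ≤ j) (r : ℕ) :
    (st j 0 0 = 0 ∧ st j 0 1 = 0 ∧ st j 1 0 = 0 ∧ st j 1 1 = 0) ∧
      st j 0 r = ind j r ∧ st j r 0 = ind j r ∧ st j 1 r = ind j r ∧ st j r 1 = ind j r ∧
        st j r r = 0 := by
  refine ⟨⟨st_eq_zero j 0 0 (by omega) (by omega), st_eq_zero j 0 1 (by omega) (by omega),
    st_eq_zero j 1 0 (by omega) (by omega), st_eq_zero j 1 1 (by omega) (by omega)⟩,
    st_right j 0 _ (by omega), st_left j 0 _ (by omega), st_right j 1 _ hj, st_left j 1 _ hj,
    st_self j r⟩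

/-- pieces of the first part, `j ≥ 1` -/
theorem T1 (j : ℕ) (hj : 1 ≤ j) (f : ℕ × Lit ℕ → ℕ) (rest : List ℕ) (tail : List (List ℕ))
    (os : List (ℕ × Lit ℕ)) :
    cross j (0 :: (zig true (os.flatMap (fun o => [1, f o, f o, 1]) ++ rest) ++ tail).flatten) =
      (os.map (fun o => 4 * ind j (f o))).sum + cross j (0 :: (zig true rest ++ tail).flatten) := by
  induction os with
  | nil => simp
  | cons o os ih =>
    obtain ⟨⟨s1, s2, s3, s4⟩, s5, s6, s7, s8, s9⟩ := vals j hj (f o)
    simp only [List.flatMap_cons, List.cons_append, List.nil_append, zig, Bool.not_true,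
      Bool.not_false, if_true, List.flatten_cons, cross_cc, List.map_cons, List.sum_cons,
      if_false, Bool.false_eq_true, ih, s1, s2, s3, s5, s6, s7, s8]
    ring

/-- pieces of the second part, `j ≥ 1` -/
theorem T2 (j : ℕ) (hj : 1 ≤ j) (f : ℕ × Lit ℕ → ℕ) (rest : List ℕ) (tail : List (List ℕ))
    (os : List (ℕ × Lit ℕ)) :
    cross j (0 :: (zig true (os.flatMap (fun o => [1, 1, f o, f o]) ++ rest) ++ tail).flatten) =
      (os.map (fun o => 2 * ind j (f o))).sum + cross j (0 :: (zig true rest ++ tail).flatten) := by
  induction os with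
  | nil => simp
  | cons o os ih =>
    obtain ⟨⟨s1, s2, s3, s4⟩, s5, s6, s7, s8, s9⟩ := vals j hj (f o)
    simp only [List.flatMap_cons, List.cons_append, List.nil_append, zig, Bool.not_true,
      Bool.not_false, if_true, List.flatten_cons, cross_cc, List.map_cons, List.sum_cons,
      if_false, Bool.false_eq_true, ih, s1, s2, s3, s4, s5, s6, s9]
    ring

/-- pieces of the first part, `j ≥ 1` -/
theorem F1 (j : ℕ) (hj : 1 ≤ j) (f : ℕ × Lit ℕ → ℕ) (rest : List ℕ) (tail : List (List ℕ))
    (os : List (ℕ × Lit ℕ)) :
    cross j (1 :: (zig false (os.flatMap (fun o => [1, f o, f o, 1]) ++ rest) ++ tail).flatten) =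
      (os.map (fun o => 2 * ind j (f o))).sum + cross j (1 :: (zig false rest ++ tail).flatten) := by
  induction os with
  | nil => simp
  | cons o os ih =>
    obtain ⟨⟨s1, s2, s3, s4⟩, s5, s6, s7, s8, s9⟩ := vals j hj (f o)
    simp only [List.flatMap_cons, List.cons_append, List.nil_append, zig, Bool.not_true,
      Bool.not_false, if_true, List.flatten_cons, cross_cc, List.map_cons, List.sum_cons,
      if_false, Bool.false_eq_true, ih, s1, s2, s3, s4, s5, s6, s9]
    ring

/-- pieces of the second part, `j ≥ 1` -/
theorem F2 (j : ℕ) (hj : 1 ≤ j) (f : ℕ × Lit ℕ → ℕ) (rest : List ℕ) (tail : List (List ℕ))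
    (os : List (ℕ × Lit ℕ)) :
    cross j (1 :: (zig false (os.flatMap (fun o => [1, 1, f o, f o]) ++ 1 :: rest) ++
      tail).flatten) =
      (os.map (fun o => 4 * ind j (f o))).sum +
        cross j (1 :: (zig false (1 :: rest) ++ tail).flatten) := by
  induction os with
  | nil => simp
  | cons o os ih =>
    have key : ∀ (r : ℕ), cross j (r :: (zig false (os.flatMap (fun o => [1, 1, f o, f o]) ++
        1 :: rest) ++ tail).flatten) = ind j r + cross j (1 :: (zig false (os.flatMap
        (fun o => [1, 1, f o, f o]) ++ 1 :: rest) ++ tail).flatten) := by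
      intro r
      obtain ⟨⟨s1, s2, s3, s4⟩, s5, s6, s7, s8, s9⟩ := vals j hj r
      cases os with
      | nil =>
        simp only [List.flatMap_nil, List.nil_append, zig, List.cons_append, List.flatten_cons,
          cross_cc, if_false, Bool.false_eq_true, s4, s8]
        omega
      | cons o' os' =>
        simp only [List.flatMap_cons, zig, List.cons_append, List.flatten_cons, List.nil_append,
          cross_cc, if_false, Bool.false_eq_true, s4, s8]
        omega
    obtain ⟨⟨s1, s2, s3, s4⟩, s5, s6, s7, s8, s9⟩ := vals j hj (f o)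
    rw [List.flatMap_cons, List.map_cons, List.sum_cons, add_assoc, ← ih]
    change cross j (1 :: 1 :: 0 :: 0 :: 1 :: f o :: 0 :: 0 :: f o :: (zig false (os.flatMap
      (fun o => [1, 1, f o, f o]) ++ 1 :: rest) ++ tail).flatten) = _
    simp only [cross_cc, s1, s2, s3, s4, s5, s6, s7]
    rw [key (f o)]
    ring

/-- rows over gap `0` -/
theorem Z0 (rs : List ℕ) : ∀ b : Bool, (∀ r ∈ rs, 1 ≤ r) → ∀ (tail : List ℕ) ,
    cross 0 ((if b then 0 else 1) :: ((zig b rs).flatten ++ tail)) =
      rs.length + cross 0 ((if rs.length % 2 = 0 then (if b then 0 else 1) else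
        (if b then 1 else 0)) :: tail) := by
  induction rs with
  | nil => intro b _ tail; simp [zig]
  | cons r rs ih =>
    intro b h tail
    have hr := h r (by simp)
    have ih' := ih (!b) (fun r hr => h r (List.mem_cons_of_mem _ hr)) tail
    cases b with
    | true =>
      simp only [if_true, Bool.not_true, reduceCtorEq, if_false, Bool.false_eq_true] at ih'
      simp only [zig, if_true, List.flatten_cons, List.cons_append, List.nil_append, cross_cc,
        List.length_cons, Bool.not_true]
      rw [cross_head 0 r 1 (by omega), ih']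
      have h1 : st 0 0 0 = 0 := by unfold st; split_ifs <;> omega
      have h2 : st 0 0 r = 1 := by unfold st; split_ifs <;> omega
      rw [h1, h2]
      rcases Nat.mod_two_eq_zero_or_one rs.length with h3 | h3
      · have h4 : (rs.length + 1) % 2 = 1 := by omega
        simp only [h3, h4, if_true, one_ne_zero, if_false]; omega
      · have h4 : (rs.length + 1) % 2 = 0 := by omega
        simp only [h3, h4, if_true, one_ne_zero, if_false]; omega
    | false =>
      simp only [if_true, Bool.not_false, reduceCtorEq, if_false, Bool.false_eq_true] at ih'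
      simp only [zig, if_true, List.flatten_cons, List.cons_append, List.nil_append, cross_cc,
        List.length_cons, Bool.not_false, reduceCtorEq, if_false, Bool.false_eq_true]
      rw [ih']
      have h1 : st 0 1 r = 0 := by unfold st; split_ifs <;> omega
      have h2 : st 0 r 0 = 1 := by unfold st; split_ifs <;> omega
      rw [h1, h2]
      rcases Nat.mod_two_eq_zero_or_one rs.length with h3 | h3
      · have h4 : (rs.length + 1) % 2 = 1 := by omega
        simp only [h3, h4, if_true, one_ne_zero, if_false]; omega
      · have h4 : (rs.length + 1) % 2 = 0 := by omega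
        simp only [h3, h4, if_true, one_ne_zero, if_false]; omega

theorem load_eq (φ : F3) (v : ℕ) (b : Bool) (j : ℕ) : load φ v b j =
    ((occ φ).map (fun o => (if b then 4 else 2) * ind j (rT v o))).sum +
      ((occ φ).map (fun o => (if b then 2 else 4) * ind j (rF v o))).sum := by
  unfold load ind
  rw [← List.sum_map_add]

theorem t_W1 : W1Stm := by
  intro φ v b
  have hpos : ∀ r ∈ part1 φ v ++ part2 φ v, 1 ≤ r := by
    intro r hr
    rw [List.mem_append] at hr
    rcases hr with h | h
    · exact part1_pos φ v r h
    · exact part2_pos φ v r h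
  refine ⟨walk_blkR _ b hpos, ?_, ?_⟩
  · have hlen : (part1 φ v ++ part2 φ v).length = 24 * φ.length + 2 := by
      rw [List.length_append, length_part1, length_part2]; omega
    have h0 := Z0 _ b hpos [1]
    rw [hlen] at h0
    have hmod : (24 * φ.length + 2) % 2 = 0 := by omega
    simp only [hmod, if_true] at h0
    rw [List.flatten_cons, List.flatten_append, List.flatten_cons, List.flatten_nil,
      List.append_nil]
    cases b with
    | true =>
      simp only [if_true] at h0
      change cross 0 (0 :: ((zig true (part1 φ v ++ part2 φ v)).flatten ++ [1])) = _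
      rw [h0]
      simp [cross_cc, st]
    | false =>
      simp only [reduceCtorEq, if_false, Bool.false_eq_true] at h0
      change cross 0 (0 :: ((zig false (part1 φ v ++ part2 φ v)).flatten ++ [1])) = _
      cases hX : part1 φ v ++ part2 φ v with
      | nil => rw [hX] at hlen; simp at hlen
      | cons r rs =>
        rw [hX] at h0 hpos
        have hr := hpos r (by simp)
        simp only [zig, List.flatten_cons, List.cons_append, List.nil_append, cross_cc,
          reduceCtorEq, if_false, Bool.false_eq_true, Bool.not_false] at h0 ⊢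
        have h1 : st 0 1 r = 0 := by unfold st; split_ifs <;> omega
        have h2 : st 0 0 r = 1 := by unfold st; split_ifs <;> omega
        have h3 : st 0 1 1 = 0 := by unfold st; split_ifs <;> omega
        rw [h1] at h0
        rw [h2]
        simp only [cross_single, h3] at h0
        omega
  · intro j hj
    rw [load_eq]
    have h11 : part2 φ v = (occ φ).flatMap (fun o => [1, 1, rF v o, rF v o]) ++ [1, 1] := rfl
    have h12 : part1 φ v = (occ φ).flatMap (fun o => [1, rT v o, rT v o, 1]) := rfl
    have s00 := st_eq_zero j 0 0 (by omega) (by omega)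
    have s01 := st_eq_zero j 0 1 (by omega) (by omega)
    have s10 := st_eq_zero j 1 0 (by omega) (by omega)
    have s11 := st_eq_zero j 1 1 (by omega) (by omega)
    cases b with
    | true =>
      rw [List.flatten_cons]
      change cross j (0 :: (zig true (part1 φ v ++ part2 φ v) ++ [[1]]).flatten) = _
      rw [h11, h12, T1 j hj, T2 j hj]
      simp only [if_true, zig, List.cons_append, List.nil_append, List.flatten_cons,
        List.flatten_nil, cross_cc, Bool.not_true, reduceCtorEq, if_false, Bool.false_eq_true,
        s00, s01, s10, s11, cross_single]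
      omega
    | false =>
      rw [List.flatten_cons]
      change cross j (0 :: (zig false (part1 φ v ++ part2 φ v) ++ [[1]]).flatten) = _
      rw [cross_head j 0 1 (by omega), h11, h12, F1 j hj, F2 j hj]
      simp only [if_true, zig, List.cons_append, List.nil_append, List.flatten_cons,
        List.flatten_nil, cross_cc, Bool.not_false, reduceCtorEq, if_false, Bool.false_eq_true,
        s00, s01, s10, s11, cross_single]
      omega

end Pool.Agent.Q149.PS
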