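import Pool.Agent.Q149.PS.W1

set_option autoImplicit false

/-!
# The path-stabbing number: walks of a block (job W2, helper149)
-/

namespace Pool.Agent.Q149.PS

open Pool.Agent.NPC Pool.Agent.Q229.PS

/-- walks of rows `(0, r)` -/
abbrev Wk0 (rs : List ℕ) (C : List (List ℕ)) : Prop :=
  List.Forall₂ (fun (ρ : Row) u => ∃ b, u = rowL b ρ) (rs.map (fun r => (0, r))) C

theorem wk0_cons {r : ℕ} {rs : List ℕ} {C : List (List ℕ)} (h : Wk0 (r :: rs) C) (hr : 1 ≤ r) :
    ∃ C', (C = [0, r] :: C' ∨ C = [r, 0] :: C') ∧ Wk0 rs C' := by
  unfold Wk0 at h
  rw [List.map_cons, List.forall₂_cons_left_iff] at h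
  obtain ⟨u, C', ⟨b, hb⟩, hC', rfl⟩ := h
  refine ⟨C', ?_, hC'⟩
  cases b with
  | true => left; rw [hb, rowL_true r hr]
  | false => right; rw [hb, rowL_false r hr]

/-- every row has a step over every gap below its right end -/
theorem wk0_lower (j : ℕ) (rs : List ℕ) : ∀ C : List (List ℕ), Wk0 rs C → (∀ r ∈ rs, 1 ≤ r) →
    ∀ tail : List ℕ, (rs.map (ind j)).sum + cross j tail ≤ cross j (C.flatten ++ tail) := by
  induction rs with
  | nil =>
    intro C hC _ tail
    unfold Wk0 at hC
    rw [List.map_nil, List.forall₂_nil_left_iff] at hC
    subst hC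
    simp
  | cons r rs ih =>
    intro C hC hpos tail
    have hr := hpos r (by simp)
    obtain ⟨C', hC1, hC'⟩ := wk0_cons hC hr
    have h2 := ih C' hC' (fun r hr => hpos r (List.mem_cons_of_mem _ hr)) tail
    rw [List.map_cons, List.sum_cons]
    have hlast : ∀ a : ℕ, cross j (C'.flatten ++ tail) ≤ cross j (a :: (C'.flatten ++ tail)) :=
      fun a => cross_le_cons j a _
    rcases hC1 with h | h
    · rw [h]
      simp only [List.flatten_cons, List.cons_append, List.nil_append, cross_cc]
      rw [st_right j 0 r (by omega)]
      have := hlast r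
      omega
    · rw [h]
      simp only [List.flatten_cons, List.cons_append, List.nil_append, cross_cc]
      rw [st_left j 0 r (by omega)]
      have := hlast 0
      omega

theorem sum_ind_zero (rs : List ℕ) (h : ∀ r ∈ rs, 1 ≤ r) : (rs.map (ind 0)).sum = rs.length := by
  induction rs with
  | nil => simp
  | cons r rs ih =>
    rw [List.map_cons, List.sum_cons, ih (fun r hr => h r (List.mem_cons_of_mem _ hr)),
      List.length_cons]
    have hr := h r (by simp)
    unfold ind
    rw [if_pos (by omega)]
    omega

/-- no steps over gap `0` between the rows: a zigzag walk -/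
theorem wk0_zig (rs : List ℕ) : ∀ (C : List (List ℕ)) (a : ℕ), Wk0 rs C → (∀ r ∈ rs, 1 ≤ r) →
    cross 0 (a :: C.flatten) ≤ rs.length → C = zig (decide (a = 0)) rs := by
  induction rs with
  | nil =>
    intro C a hC _ _
    unfold Wk0 at hC
    rw [List.map_nil, List.forall₂_nil_left_iff] at hC
    subst hC
    rfl
  | cons r rs ih =>
    intro C a hC hpos hle
    have hr := hpos r (by simp)
    have hpos' : ∀ r ∈ rs, 1 ≤ r := fun r hr => hpos r (List.mem_cons_of_mem _ hr)
    obtain ⟨C', hC1, hC'⟩ := wk0_cons hC hr
    have hlow : ∀ a : ℕ, rs.length ≤ cross 0 (a :: C'.flatten) := by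
      intro a
      have h1 := wk0_lower 0 rs C' hC' hpos' []
      rw [sum_ind_zero rs hpos', List.append_nil, cross_nil] at h1
      have h2 := cross_le_cons 0 a C'.flatten
      omega
    rcases hC1 with h | h
    · rw [h] at hle ⊢
      simp only [List.flatten_cons, List.cons_append, List.nil_append, cross_cc,
        List.length_cons] at hle
      have h1 : st 0 0 r = 1 := by unfold st; split_ifs <;> omega
      have h2 := hlow r
      have h3 : st 0 a 0 = 0 := by omega
      have ha : a = 0 := by
        unfold st at h3
        split_ifs at h3 with h4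
        omega
      subst ha
      have h5 := ih C' r hC' hpos' (by omega)
      rw [h5]
      have hr0 : decide (r = 0) = false := by rw [decide_eq_false_iff_not]; omega
      rw [hr0]
      simp [zig]
    · rw [h] at hle ⊢
      simp only [List.flatten_cons, List.cons_append, List.nil_append, cross_cc,
        List.length_cons] at hle
      have h1 : st 0 r 0 = 1 := by unfold st; split_ifs <;> omega
      have h2 := hlow 0
      have h3 : st 0 a r = 0 := by omega
      have ha : a ≠ 0 := by
        intro ha
        unfold st at h3
        split_ifs at h3 with h4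
        omega
      have h5 := ih C' 0 hC' hpos' (by omega)
      rw [h5]
      have hr0 : decide (a = 0) = false := by rw [decide_eq_false_iff_not]; omega
      rw [hr0]
      simp [zig]

theorem sum_flat4 (g : ℕ → ℕ) (f : ℕ × Lit ℕ → List ℕ) (c : ℕ × Lit ℕ → ℕ)
    (h : ∀ o, ((f o).map g).sum = c o) (os : List (ℕ × Lit ℕ)) :
    ((os.flatMap f).map g).sum = (os.map c).sum := by
  induction os with
  | nil => simp
  | cons o os ih =>
    rw [List.flatMap_cons, List.map_append, List.sum_append, ih, h, List.map_cons, List.sum_cons]

theorem sum_part1 (φ : F3) (v j : ℕ) (hj : 1 ≤ j) : ((part1 φ v).map (ind j)).sum =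
    ((occ φ).map (fun o => 2 * ind j (rT v o))).sum := by
  unfold part1
  apply sum_flat4
  intro o
  have h1 : ind j 1 = 0 := by unfold ind; rw [if_neg (by omega)]
  simp only [List.map_cons, List.map_nil, List.sum_cons, List.sum_nil, h1]
  omega

theorem sum_part2 (φ : F3) (v j : ℕ) (hj : 1 ≤ j) : ((part2 φ v).map (ind j)).sum =
    ((occ φ).map (fun o => 2 * ind j (rF v o))).sum := by
  unfold part2
  have h1 : ind j 1 = 0 := by unfold ind; rw [if_neg (by omega)]
  rw [List.map_append, List.sum_append, sum_flat4 (ind j) _ (fun o => 2 * ind j (rF v o))]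
  · simp [h1]
  · intro o
    simp only [List.map_cons, List.map_nil, List.sum_cons, List.sum_nil, h1]
    omega

theorem cross_add_le (g : ℕ) (l l' : List ℕ) : cross g l + cross g l' ≤ cross g (l ++ l') :=
  adjC_add_le l l'

theorem cross_le_append (g : ℕ) (l l' : List ℕ) : cross g l ≤ cross g (l ++ l') := by
  have := cross_add_le g l l'
  omega

theorem f2_split {α β : Type} {R : α → β → Prop} (l1 l2 : List α) : ∀ us : List β,
    List.Forall₂ R (l1 ++ l2) us →
    ∃ A B, List.Forall₂ R l1 A ∧ List.Forall₂ R l2 B ∧ us = A ++ B := by
  induction l1 with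
  | nil => intro us h; exact ⟨[], us, List.Forall₂.nil, h, rfl⟩
  | cons a l1 ih =>
    intro us h
    rw [List.cons_append, List.forall₂_cons_left_iff] at h
    obtain ⟨u, us', hu, hus, rfl⟩ := h
    obtain ⟨A, B, h1, h2, rfl⟩ := ih us' hus
    exact ⟨u :: A, B, List.Forall₂.cons hu h1, h2, rfl⟩

theorem t_W2 : W2Stm := by
  intro φ v us hus
  unfold IsWalk blk blkR at hus
  rw [List.forall₂_cons_left_iff] at hus
  obtain ⟨u0, us1, ⟨b0, hb0⟩, hus1, rfl⟩ := hus
  have hu0 : u0 = [0] := by rw [hb0]; rfl
  subst hu0
  rw [List.map_append, List.append_assoc] at hus1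
  obtain ⟨A, us2, hA, hus2, rfl⟩ := f2_split _ _ _ hus1
  obtain ⟨B, us3, hB, hus3, rfl⟩ := f2_split _ _ _ hus2
  have hus3' : us3 = [[1]] := by
    rw [List.forall₂_cons_left_iff] at hus3
    obtain ⟨u1, us4, ⟨b1, hb1⟩, hus4, rfl⟩ := hus3
    rw [List.forall₂_nil_left_iff] at hus4
    rw [hus4, hb1]
    rfl
  subst hus3'
  have hfl : ([0] :: (A ++ (B ++ [[1]]))).flatten = (0 :: A.flatten) ++ (B.flatten ++ [1]) := by
    simp
  rw [hfl]
  have p1 := part1_pos φ v
  have p2 := part2_pos φ v
  -- lower bounds
  have lA : ∀ j, ((part1 φ v).map (ind j)).sum ≤ cross j (0 :: A.flatten) := by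
    intro j
    have h1 := wk0_lower j _ A hA p1 []
    rw [List.append_nil, cross_nil] at h1
    have h2 := cross_le_cons j 0 A.flatten
    omega
  have lB : ∀ j, ((part2 φ v).map (ind j)).sum ≤ cross j (B.flatten ++ [1]) := by
    intro j
    have h1 := wk0_lower j _ B hB p2 [1]
    rw [cross_single] at h1
    omega
  have tot : ∀ j, cross j (0 :: A.flatten) + cross j (B.flatten ++ [1]) ≤
      cross j ((0 :: A.flatten) ++ (B.flatten ++ [1])) := fun j => cross_add_le j _ _
  have a0 := lA 0
  have b0' := lB 0
  have t0 := tot 0
  rw [sum_ind_zero _ p1, length_part1] at a0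
  rw [sum_ind_zero _ p2, length_part2] at b0'
  have par : cross 0 ((0 :: A.flatten) ++ (B.flatten ++ [1])) % 2 = 1 := by
    have := cross_parity 0 1 (A.flatten ++ B.flatten) 0
    rw [if_neg (by omega), List.append_assoc] at this
    exact this
  refine ⟨by omega, fun hle => ?_⟩
  by_cases hcase : cross 0 (0 :: A.flatten) ≤ 12 * φ.length
  · -- the first part is `zig true`
    have hz := wk0_zig _ A 0 hA p1 (by rw [length_part1]; exact hcase)
    refine ⟨true, fun j hj => ?_⟩
    rw [load_eq]
    have h1 : ((occ φ).map (fun o => 4 * ind j (rT v o))).sum ≤ cross j (0 :: A.flatten) := by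
      rw [hz]
      have h3 := T1 j hj (rT v) [] [] (occ φ)
      rw [List.append_nil, List.append_nil] at h3
      change cross j (0 :: (zig true (part1 φ v)).flatten) = _ at h3
      change _ ≤ cross j (0 :: (zig true (part1 φ v)).flatten)
      rw [h3]
      omega
    have h2 := lB j
    rw [sum_part2 φ v j hj] at h2
    have h3 := tot j
    simp only [if_true]
    omega
  · have hb : cross 0 (B.flatten ++ [1]) ≤ 12 * φ.length + 2 := by omega
    -- the second part is `zig false`
    have hz : B = zig false (part2 φ v) := by
      have hb' : cross 0 B.flatten ≤ 12 * φ.length + 2 :=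
        le_trans (cross_le_append 0 B.flatten [1]) hb
      cases hB2 : part2 φ v with
      | nil => have := length_part2 φ v; rw [hB2] at this; simp at this
      | cons r rs =>
        rw [hB2] at hB p2
        have hr := p2 r (by simp)
        have hlen : rs.length = 12 * φ.length + 1 := by
          have := length_part2 φ v
          rw [hB2, List.length_cons] at this
          omega
        obtain ⟨B', hB1, hB'⟩ := wk0_cons hB hr
        rcases hB1 with h | h
        · exfalso
          -- starts with 0: then it is `zig true`, which ends with 0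
          have h4 : cross 0 (0 :: B.flatten) ≤ (r :: rs).length := by
            rw [h] at hb' ⊢
            simp only [List.flatten_cons, List.cons_append, List.nil_append, cross_cc] at hb' ⊢
            have : st 0 0 0 = 0 := by unfold st; split_ifs <;> omega
            rw [this, List.length_cons, hlen]
            omega
          have h5 := wk0_zig _ B 0 hB p2 h4
          have h6 := Z0 (r :: rs) true p2 [1]
          rw [List.length_cons, hlen] at h6
          have hmod : (12 * φ.length + 1 + 1) % 2 = 0 := by omega
          simp only [hmod, if_true] at h6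
          have h7 : cross 0 (0 :: ((zig true (r :: rs)).flatten ++ [1])) =
              cross 0 ((zig true (r :: rs)).flatten ++ [1]) := by
            simp only [zig, if_true, List.flatten_cons, List.cons_append, List.nil_append,
              cross_cc]
            have : st 0 0 0 = 0 := by unfold st; split_ifs <;> omega
            rw [this]
            omega
          rw [h7] at h6
          have h8 : B = zig true (r :: rs) := h5
          rw [← h8] at h6
          have h9 : cross 0 [0, 1] = 1 := by simp [cross_cc, st]
          rw [h9] at h6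
          omega
        · have h4 : cross 0 (1 :: B.flatten) ≤ (r :: rs).length := by
            rw [h] at hb' ⊢
            simp only [List.flatten_cons, List.cons_append, List.nil_append, cross_cc] at hb' ⊢
            have : st 0 1 r = 0 := by unfold st; split_ifs <;> omega
            rw [this, List.length_cons, hlen]
            omega
          have h5 := wk0_zig _ B 1 hB p2 h4
          rw [h5]
          rfl
    refine ⟨false, fun j hj => ?_⟩
    rw [load_eq]
    have h1 : ((occ φ).map (fun o => 4 * ind j (rF v o))).sum ≤ cross j (B.flatten ++ [1]) := by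
      rw [hz]
      have h3 := F2 j hj (rF v) [1] [[1]] (occ φ)
      change cross j (1 :: (zig false (part2 φ v) ++ [[1]]).flatten) = _ at h3
      rw [List.flatten_append] at h3
      change cross j (1 :: ((zig false (part2 φ v)).flatten ++ [1])) = _ at h3
      have h4 : cross j (1 :: ((zig false (part2 φ v)).flatten ++ [1])) =
          cross j ((zig false (part2 φ v)).flatten ++ [1]) := by
        cases hX : occ φ with
        | nil =>
          unfold part2
          rw [hX]
          have s1 := st_eq_zero j 1 1 hj hj
          simp only [List.flatMap_nil, List.nil_append, zig, List.flatten_cons, List.cons_append,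
            cross_cc, s1, if_false, Bool.false_eq_true]
          omega
        | cons o os =>
          unfold part2
          rw [hX]
          have s1 := st_eq_zero j 1 1 hj hj
          simp only [List.flatMap_cons, List.nil_append, zig, List.flatten_cons, List.cons_append,
            cross_cc, s1, if_false, Bool.false_eq_true]
          omega
      rw [h4] at h3
      rw [h3]
      omega
    have h2 := lA j
    rw [sum_part1 φ v j hj] at h2
    have h3 := tot j
    simp only [if_false, Bool.false_eq_true]
    omega

end Pool.Agent.Q149.PS
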