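import Pool.Agent.Q149.PS.W2

set_option autoImplicit false

/-!
# The path-stabbing number: the sum of the loads (job W3, helper149)
-/

namespace Pool.Agent.Q149.PS

open Pool.Agent.NPC Pool.Agent.Q229.PS

/-- the summand of `load` -/
def sm (j v : ℕ) (b : Bool) (o : ℕ × Lit ℕ) : ℕ :=
  (if b then 4 else 2) * (if j + 1 ≤ rT v o then 1 else 0) +
    (if b then 2 else 4) * (if j + 1 ≤ rF v o then 1 else 0)

theorem list_range_sum (N : ℕ) (f : ℕ → ℕ) :
    ((List.range N).map f).sum = ∑ v ∈ Finset.range N, f v := rfl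

theorem sum_exch (N : ℕ) (S : ℕ → (ℕ × Lit ℕ) → ℕ) (os : List (ℕ × Lit ℕ)) :
    ((List.range N).map (fun v => (os.map (S v)).sum)).sum =
      (os.map (fun o => ((List.range N).map (fun v => S v o)).sum)).sum := by
  induction os with
  | nil => simp
  | cons o os ih =>
    simp only [List.map_cons, List.sum_cons]
    rw [List.sum_map_add, ih]

theorem G_big (N j i : ℕ) (τ : ℕ → Bool) (l : Lit ℕ) (h : j ≤ i) :
    ((List.range N).map (fun v => sm j v (τ v) (i, l))).sum = 6 * N := by
  have h1 : ∀ v, sm j v (τ v) (i, l) = 6 := by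
    intro v
    have e1 : j + 1 ≤ rT v (i, l) := by unfold rT; simp only; omega
    have e2 : j + 1 ≤ rF v (i, l) := by unfold rF; simp only; omega
    unfold sm
    rw [if_pos e1, if_pos e2]
    cases τ v <;> rfl
  simp only [h1]
  simp
  ring

theorem G_small (N j i : ℕ) (τ : ℕ → Bool) (l : Lit ℕ) (h : i + 1 < j) :
    ((List.range N).map (fun v => sm j v (τ v) (i, l))).sum = 0 := by
  have h1 : ∀ v, sm j v (τ v) (i, l) = 0 := by
    intro v
    have e1 : ¬ j + 1 ≤ rT v (i, l) := by unfold rT; simp only; split_ifs <;> omega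
    have e2 : ¬ j + 1 ≤ rF v (i, l) := by unfold rF; simp only; split_ifs <;> omega
    unfold sm
    rw [if_neg e1, if_neg e2, mul_zero, mul_zero, add_zero]
  simp only [h1]
  simp

theorem G_mid (N j i : ℕ) (τ : ℕ → Bool) (l : Lit ℕ) (h : i + 1 = j) (hl : l.2 < N) :
    ((List.range N).map (fun v => sm j v (τ v) (i, l))).sum = wt τ l := by
  have h1 : ∀ v, sm j v (τ v) (i, l) = if v = l.2 then wt τ l else 0 := by
    intro v
    unfold sm rT rF
    dsimp only
    by_cases hv : l.2 = v
    · subst hv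
      rw [if_pos rfl]
      unfold wt
      cases hb : l.1
      · simp [h]
        cases τ l.2 <;> simp
      · simp [h]
    · have hv' : ¬ v = l.2 := fun h => hv h.symm
      simp [h, hv, hv']
  rw [list_range_sum]
  simp only [h1]
  rw [Finset.sum_ite_eq' (Finset.range N) l.2 (fun _ => wt τ l), if_pos (Finset.mem_range.2 hl)]

/-- the occurrences with clause numbers from `k` on -/
def occk (k : ℕ) (φ : F3) : List (ℕ × Lit ℕ) :=
  (φ.zipIdx k).flatMap (fun p => [(p.2, p.1.1), (p.2, p.1.2.1), (p.2, p.1.2.2)])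

theorem occk_cons (k : ℕ) (c : Lit ℕ × Lit ℕ × Lit ℕ) (φ : F3) :
    occk k (c :: φ) = (k, c.1) :: (k, c.2.1) :: (k, c.2.2) :: occk (k + 1) φ := by
  unfold occk
  rw [List.zipIdx_cons, List.flatMap_cons]
  rfl

theorem sum_occk_big (N j : ℕ) (τ : ℕ → Bool) (ψ : F3) : ∀ k, j ≤ k →
    ((occk k ψ).map (fun o => ((List.range N).map (fun v => sm j v (τ v) o)).sum)).sum =
      18 * N * ψ.length := by
  induction ψ with
  | nil => intro k _; simp [occk]
  | cons c ψ ih =>
    intro k hk
    rw [occk_cons]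
    simp only [List.map_cons, List.sum_cons, List.length_cons]
    rw [G_big N j k τ _ hk, G_big N j k τ _ hk, G_big N j k τ _ hk, ih (k + 1) (by omega)]
    ring

theorem sum_occk (N j : ℕ) (τ : ℕ → Bool) (ψ : F3)
    (hs : ∀ c ∈ ψ, c.1.2 < N ∧ c.2.1.2 < N ∧ c.2.2.2 < N) : ∀ k, k + 1 ≤ j →
    ∀ c, ψ[j - 1 - k]? = some c →
    ((occk k ψ).map (fun o => ((List.range N).map (fun v => sm j v (τ v) o)).sum)).sum =
      18 * N * (ψ.length - (j - k)) + (wt τ c.1 + wt τ c.2.1 + wt τ c.2.2) := by
  induction ψ with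
  | nil => intro k _ c hc; simp at hc
  | cons d ψ ih =>
    intro k hk c hc
    rw [occk_cons]
    simp only [List.map_cons, List.sum_cons, List.length_cons]
    by_cases hkj : k + 1 = j
    · have h0 : j - 1 - k = 0 := by omega
      rw [h0] at hc
      simp only [List.getElem?_cons_zero, Option.some.injEq] at hc
      subst hc
      obtain ⟨h1, h2, h3⟩ := hs d (by simp)
      rw [G_mid N j k τ _ hkj h1, G_mid N j k τ _ hkj h2, G_mid N j k τ _ hkj h3,
        sum_occk_big N j τ ψ (k + 1) (by omega)]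
      have : ψ.length + 1 - (j - k) = ψ.length := by omega
      rw [this]
      ring
    · have h0 : j - 1 - k = (j - 1 - (k + 1)) + 1 := by omega
      rw [h0, List.getElem?_cons_succ] at hc
      rw [G_small N j k τ _ (by omega), G_small N j k τ _ (by omega), G_small N j k τ _ (by omega),
        ih (fun c hc => hs c (List.mem_cons_of_mem _ hc)) (k + 1) (by omega) c hc]
      have : ψ.length + 1 - (j - k) = ψ.length - (j - (k + 1)) := by omega
      rw [this]
      ring

theorem t_W3 : W3Stm := by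
  intro φ τ hs j hj c hc
  have h1 : ∀ v, load φ v (τ v) j = ((occk 0 φ).map (sm j v (τ v))).sum := fun v => rfl
  simp only [h1]
  rw [sum_exch (3 * φ.length) (fun v => sm j v (τ v)) (occk 0 φ)]
  rw [sum_occk (3 * φ.length) j τ φ hs 0 (by omega) c hc]
  congr 1
  rw [Nat.sub_zero]
  ring

end Pool.Agent.Q149.PS
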