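import Pool.Agent.Q149.PS.W3

set_option autoImplicit false

/-!
# The path-stabbing number: 3SAT reduces to the walker problem (job W4, helper149)
-/

namespace Pool.Agent.Q149.PS

open Pool.Agent.NPC Pool.Agent.Q229.PS

/-- a block between two other parts of the walk -/
theorem cross_block (j : ℕ) (X M : List ℕ) :
    cross j (X ++ (0 :: (M ++ [1])) ++ [0]) =
      cross j (X ++ [0]) + cross j (0 :: (M ++ [1])) + st j 1 0 := by
  have h1 : X ++ (0 :: (M ++ [1])) ++ [0] = X ++ 0 :: (M ++ 1 :: [0]) := by simp
  rw [h1]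
  unfold cross
  rw [adjC_append X 0 (M ++ 1 :: [0])]
  have h2 : (0 :: (M ++ 1 :: [0]) : List ℕ) = (0 :: M) ++ 1 :: [0] := rfl
  rw [h2, adjC_append (0 :: M) 1 [0]]
  have h3 : adjC (cr j) [1, 0] = st j 1 0 + 0 := cross_cc j 1 0 []
  rw [h3]
  have h4 : (0 :: (M ++ [1]) : List ℕ) = (0 :: M) ++ [1] := rfl
  rw [h4]
  omega

/-- walks of a block -/
theorem walk_form (φ : F3) (v : ℕ) (w : List (List ℕ)) (hw : IsWalk (blk φ v) w) :
    ∃ M : List ℕ, w.flatten = 0 :: (M ++ [1]) := by
  unfold IsWalk blk blkR at hw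
  rw [List.forall₂_cons_left_iff] at hw
  obtain ⟨u0, w1, ⟨b0, hb0⟩, hw1, rfl⟩ := hw
  have hu0 : u0 = [0] := by rw [hb0]; rfl
  subst hu0
  obtain ⟨A, w2, hA, hw2, rfl⟩ := f2_split _ _ _ hw1
  have hw2' : w2 = [[1]] := by
    rw [List.forall₂_cons_left_iff] at hw2
    obtain ⟨u1, us4, ⟨b1, hb1⟩, hus4, rfl⟩ := hw2
    rw [List.forall₂_nil_left_iff] at hus4
    rw [hus4, hb1]
    rfl
  subst hw2'
  exact ⟨A.flatten, by simp⟩

theorem walk_sum (φ : F3) (w : ℕ → List (List ℕ)) (hw : ∀ v, IsWalk (blk φ v) (w v)) (j n : ℕ) :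
    cross j (((List.range n).flatMap w).flatten ++ [0]) =
      ((List.range n).map (fun v => cross j (w v).flatten + st j 1 0)).sum := by
  induction n with
  | zero => simp
  | succ n ih =>
    obtain ⟨M, hM⟩ := walk_form φ n (w n) (hw n)
    rw [List.range_succ, List.flatMap_append, List.map_append, List.sum_append, ← ih,
      List.flatten_append]
    simp only [List.flatMap_cons, List.flatMap_nil, List.append_nil, List.map_cons, List.map_nil,
      List.sum_cons, List.sum_nil, add_zero]
    rw [hM, cross_block]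
    omega

theorem walk_range (φ : F3) (w : ℕ → List (List ℕ)) (hw : ∀ v, IsWalk (blk φ v) (w v)) (n : ℕ) :
    IsWalk ((List.range n).flatMap (blk φ)) ((List.range n).flatMap w) := by
  induction n with
  | zero => exact List.Forall₂.nil
  | succ n ih =>
    rw [List.range_succ, List.flatMap_append, List.flatMap_append]
    refine List.rel_append ih ?_
    simp only [List.flatMap_cons, List.flatMap_nil, List.append_nil]
    exact hw n

theorem walk_lower (h2 : W2Stm) (φ : F3) (n : ℕ) : ∀ us : List (List ℕ),
    IsWalk ((List.range n).flatMap (blk φ)) us →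
    n * (24 * φ.length + 4) ≤ cross 0 (us.flatten ++ [0]) ∧
    (cross 0 (us.flatten ++ [0]) ≤ n * (24 * φ.length + 4) →
      ∃ τ : ℕ → Bool, ∀ j, 1 ≤ j →
        ((List.range n).map (fun v => load φ v (τ v) j)).sum ≤ cross j (us.flatten ++ [0])) := by
  induction n with
  | zero =>
    intro us hus
    unfold IsWalk at hus
    rw [List.range_zero, List.flatMap_nil, List.forall₂_nil_left_iff] at hus
    subst hus
    simp
  | succ n ih =>
    intro us hus
    unfold IsWalk at hus
    rw [List.range_succ, List.flatMap_append] at hus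
    obtain ⟨us1, w, hus1, hw, rfl⟩ := f2_split _ _ _ hus
    simp only [List.flatMap_cons, List.flatMap_nil, List.append_nil] at hw
    obtain ⟨i1, i2⟩ := ih us1 hus1
    obtain ⟨M, hM⟩ := walk_form φ n w hw
    obtain ⟨k1, k2⟩ := h2 φ n w hw
    have hc : ∀ j, cross j ((us1 ++ w).flatten ++ [0]) =
        cross j (us1.flatten ++ [0]) + cross j w.flatten + st j 1 0 := by
      intro j
      rw [List.flatten_append, hM, cross_block]
    have hs : st 0 1 0 = 1 := by unfold st; split_ifs <;> omega
    have hc0 := hc 0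
    rw [hs] at hc0
    have hmul : (n + 1) * (24 * φ.length + 4) = n * (24 * φ.length + 4) + 24 * φ.length + 4 := by
      ring
    refine ⟨by omega, fun hle => ?_⟩
    obtain ⟨τ, hτ⟩ := i2 (by omega)
    obtain ⟨b, hb⟩ := k2 (by omega)
    refine ⟨fun v => if v = n then b else τ v, fun j hj => ?_⟩
    rw [hc, List.range_succ, List.map_append, List.sum_append]
    have e1 : ((List.range n).map (fun v => load φ v (if v = n then b else τ v) j)) =
        ((List.range n).map (fun v => load φ v (τ v) j)) := by
      apply List.map_congr_left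
      intro v hv
      rw [List.mem_range] at hv
      rw [if_neg (by omega)]
    rw [e1]
    simp only [List.map_cons, List.map_nil, List.sum_cons, List.sum_nil, add_zero, if_true]
    have := hτ j hj
    have := hb j hj
    omega

theorem wt_le (τ : ℕ → Bool) (l : Lit ℕ) : 2 ≤ wt τ l ∧ wt τ l ≤ 4 := by
  unfold wt; split_ifs <;> omega

theorem t_W4 : W4Stm := by
  intro h1 h2 h3 φ hs
  constructor
  · rintro ⟨τ, hτ⟩
    let w : ℕ → List (List ℕ) := fun v => [0] :: (zig (τ v) (part1 φ v ++ part2 φ v) ++ [[1]])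
    have hw : ∀ v, IsWalk (blk φ v) (w v) := fun v => (h1 φ v (τ v)).1
    refine ⟨(List.range (3 * φ.length)).flatMap w ++ [[0]], ?_, ?_⟩
    · unfold rows IsWalk
      refine List.rel_append (walk_range φ w hw _) ?_
      exact List.Forall₂.cons ⟨true, rfl⟩ List.Forall₂.nil
    · intro j hj
      have e1 : ((List.range (3 * φ.length)).flatMap w ++ [[0]]).flatten =
          ((List.range (3 * φ.length)).flatMap w).flatten ++ [0] := by
        rw [List.flatten_append]
        rfl
      rw [e1, walk_sum φ w hw]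
      unfold cap
      by_cases hj0 : j = 0
      · subst hj0
        rw [if_pos rfl]
        have hs : st 0 1 0 = 1 := by unfold st; split_ifs <;> omega
        have e2 : ∀ v, cross 0 (w v).flatten + st 0 1 0 = 24 * φ.length + 4 := by
          intro v
          rw [hs, (h1 φ v (τ v)).2.1]
        simp only [e2, List.map_const', List.sum_replicate, List.length_range, smul_eq_mul]
        exact le_refl _
      · rw [if_neg hj0, if_pos hj]
        have e2 : ∀ v, cross j (w v).flatten + st j 1 0 = load φ v (τ v) j := by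
          intro v
          rw [st_eq_zero j 1 0 (by omega) (by omega), (h1 φ v (τ v)).2.2 j (by omega), add_zero]
        simp only [e2]
        have hlt : j - 1 < φ.length := by omega
        have hc : φ[j - 1]? = some (φ[j - 1]'hlt) := List.getElem?_eq_getElem hlt
        rw [h3 φ τ hs j (by omega) _ hc]
        have hmem : φ[j - 1]'hlt ∈ φ := List.getElem_mem hlt
        have hsat := hτ _ hmem
        have w1 := wt_le τ (φ[j - 1]'hlt).1
        have w2 := wt_le τ (φ[j - 1]'hlt).2.1
        have w3 := wt_le τ (φ[j - 1]'hlt).2.2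
        rcases hsat with h | h | h
        · have : wt τ (φ[j - 1]'hlt).1 = 2 := by unfold wt; rw [if_pos h]
          omega
        · have : wt τ (φ[j - 1]'hlt).2.1 = 2 := by unfold wt; rw [if_pos h]
          omega
        · have : wt τ (φ[j - 1]'hlt).2.2 = 2 := by unfold wt; rw [if_pos h]
          omega
  · rintro ⟨us, hus, hcap⟩
    unfold rows IsWalk at hus
    obtain ⟨us1, us2, hus1, hus2, rfl⟩ := f2_split _ _ _ hus
    have hus2' : us2 = [[0]] := by
      rw [List.forall₂_cons_left_iff] at hus2
      obtain ⟨u1, us4, ⟨b1, hb1⟩, hus4, rfl⟩ := hus2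
      rw [List.forall₂_nil_left_iff] at hus4
      rw [hus4, hb1]
      rfl
    subst hus2'
    have e1 : (us1 ++ [[0]]).flatten = us1.flatten ++ [0] := by
      rw [List.flatten_append]
      rfl
    rw [e1] at hcap
    obtain ⟨_, i2⟩ := walk_lower h2 φ _ us1 hus1
    have c0 := hcap 0 (by omega)
    unfold cap at c0
    rw [if_pos rfl] at c0
    obtain ⟨τ, hτ⟩ := i2 c0
    refine ⟨τ, ?_⟩
    intro c hc
    obtain ⟨i, hi, rfl⟩ := List.mem_iff_getElem.1 hc
    have hj := hτ (i + 1) (by omega)
    have hcj := hcap (i + 1) (by omega)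
    unfold cap at hcj
    rw [if_neg (by omega), if_pos (by omega)] at hcj
    have hc2 : φ[(i + 1) - 1]? = some (φ[i]'hi) := by
      rw [Nat.add_sub_cancel]
      exact List.getElem?_eq_getElem hi
    rw [h3 φ τ hs (i + 1) (by omega) _ hc2] at hj
    by_contra hno
    rw [not_or, not_or] at hno
    obtain ⟨n1, n2, n3⟩ := hno
    have w1 : wt τ (φ[i]'hi).1 = 4 := by unfold wt; rw [if_neg n1]
    have w2 : wt τ (φ[i]'hi).2.1 = 4 := by unfold wt; rw [if_neg n2]
    have w3 : wt τ (φ[i]'hi).2.2 = 4 := by unfold wt; rw [if_neg n3]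
    omega

end Pool.Agent.Q149.PS
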